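import Pool.Agent.W712.WR.All

/-!
Permanence of all variable-k weakly reversible systems, in every dimension.
-/

set_option autoImplicit false

namespace Pool.Agent.Results.MP_5f8094_an.Permanence

/-- The right-hand side of the system generated by the edge set `E` (an edge is a pair
(source, target) of real vectors) with the rates `k`, at the point `x`. -/
noncomputable def field {n : ℕ} (E : Finset ((Fin n → ℝ) × (Fin n → ℝ)))
    (k : (Fin n → ℝ) × (Fin n → ℝ) → ℝ) (x : Fin n → ℝ) : Fin n → ℝ :=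
  ∑ e ∈ E, (k e * ∏ i, x i ^ (e.1 i)) • (e.2 - e.1)

/-- Every edge of `E` lies on a directed cycle: its source can be reached from its target. -/
def WeaklyReversible {n : ℕ} (E : Finset ((Fin n → ℝ) × (Fin n → ℝ))) : Prop :=
  ∀ e ∈ E, Relation.ReflTransGen (fun u v => (u, v) ∈ E) e.2 e.1

/-- `x` is a solution on `J` of the variable-`k` system: positive, absolutely continuous on the
compact subintervals, and satisfying the differential equation at almost every time of `J`. -/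
structure IsSolution {n : ℕ} (E : Finset ((Fin n → ℝ) × (Fin n → ℝ)))
    (k : (Fin n → ℝ) × (Fin n → ℝ) → ℝ → ℝ) (x : ℝ → Fin n → ℝ) (J : Set ℝ) : Prop where
  pos : ∀ t ∈ J, ∀ i, 0 < x t i
  ac : ∀ a ∈ J, ∀ b ∈ J, a ≤ b → AbsolutelyContinuousOnInterval x a b
  ode : ∀ᵐ t, t ∈ J → HasDerivAt x (field E (fun e => k e t) (x t)) t

/-- The class `S_{x₀}`: the positive vectors `z` with `z - x₀` in the span of the edge vectors. -/
def compatClass {n : ℕ} (E : Finset ((Fin n → ℝ) × (Fin n → ℝ))) (x₀ : Fin n → ℝ) :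
    Set (Fin n → ℝ) :=
  {z | (∀ i, 0 < z i) ∧ z - x₀ ∈ Submodule.span ℝ {v | ∃ e ∈ E, v = e.2 - e.1}}

/-- For every finite weakly reversible edge set in `ℝⁿ`, every `ε > 0` and every `x₀ > 0` there is
one compact subset `K` of the class of `x₀` such that, for all measurable rates with values in
`[ε, 1/ε]`, solutions exist from every point of the class, and every solution on an interval
containing `0` that starts in the class extends to all positive times and is eventually in `K`. -/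
theorem result (n : ℕ) (E : Finset ((Fin n → ℝ) × (Fin n → ℝ))) (hE : WeaklyReversible E)
    (ε : ℝ) (hε : 0 < ε) (x₀ : Fin n → ℝ) (hx₀ : ∀ i, 0 < x₀ i) :
    ∃ K : Set (Fin n → ℝ), IsCompact K ∧ K ⊆ compatClass E x₀ ∧
      ∀ k : (Fin n → ℝ) × (Fin n → ℝ) → ℝ → ℝ, (∀ e ∈ E, Measurable (k e)) →
        (∀ e ∈ E, ∀ t : ℝ, ε ≤ k e t ∧ k e t ≤ 1 / ε) →
        (∀ z ∈ compatClass E x₀, ∃ y : ℝ → Fin n → ℝ,
          y 0 = z ∧ IsSolution E k y (Set.Ici 0)) ∧
        (∀ (J : Set ℝ) (x : ℝ → Fin n → ℝ), J.OrdConnected → (0 : ℝ) ∈ J →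
          IsSolution E k x J → x 0 ∈ compatClass E x₀ →
          ∃ y : ℝ → Fin n → ℝ, IsSolution E k y (J ∪ Set.Ici 0) ∧ (∀ t ∈ J, y t = x t) ∧
            ∃ t₀ : ℝ, 0 < t₀ ∧ ∀ t, t₀ < t → y t ∈ K) := by
  obtain ⟨K, hK, hKc, H⟩ := W712.WR.perm' n E hE ε hε x₀ hx₀
  have fwd : ∀ (k : (Fin n → ℝ) × (Fin n → ℝ) → ℝ → ℝ) (x : ℝ → Fin n → ℝ) (J : Set ℝ),
      IsSolution E k x J → W712.WR.IsSol E k x J := fun k x J h => ⟨h.pos, h.ac, h.ode⟩
  have back : ∀ (k : (Fin n → ℝ) × (Fin n → ℝ) → ℝ → ℝ) (x : ℝ → Fin n → ℝ) (J : Set ℝ),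
      W712.WR.IsSol E k x J → IsSolution E k x J := fun k x J h => ⟨h.pos, h.ac, h.ode⟩
  refine ⟨K, hK, hKc, fun k hkm hk => ?_⟩
  obtain ⟨h1, h2⟩ := H k hkm hk
  refine ⟨?_, ?_⟩
  · intro z hz
    obtain ⟨y, hy0, hy⟩ := h1 z hz
    exact ⟨y, hy0, back _ _ _ hy⟩
  · intro J x hJ h0 hx hx0
    have hx' := fwd _ _ _ hx
    -- the forward part
    have hfor : W712.WR.IsSol E k x (J ∩ Set.Ici 0) := by
      refine ⟨fun t ht => hx'.pos t ht.1, fun a ha b hb hab => hx'.ac a ha.1 b hb.1 hab, ?_⟩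
      filter_upwards [hx'.ode] with t ht htJ
      exact ht htJ.1
    obtain ⟨y, hy, hyx, t₀, ht₀, hyK⟩ := h2 (J ∩ Set.Ici 0) x
      (hJ.inter Set.ordConnected_Ici) ⟨h0, Set.mem_Ici.2 le_rfl⟩ Set.inter_subset_right hfor hx0
    have hy0 : x 0 = y 0 := (hyx 0 ⟨h0, Set.mem_Ici.2 le_rfl⟩).symm
    refine ⟨fun t => if t < 0 then x t else y t,
      back _ _ _ (W712.WR.sol_glue hJ h0 hx' hy hy0), ?_, t₀, ht₀, ?_⟩
    · intro t ht
      by_cases htn : t < 0
      · simp [htn]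
      · simp only [htn, if_false]
        exact hyx t ⟨ht, not_lt.1 htn⟩
    · intro t ht
      have : ¬ t < 0 := not_lt.2 (ht₀.le.trans ht.le)
      simp only [this, if_false]
      exact hyK t ht

end Pool.Agent.Results.MP_5f8094_an.Permanence
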